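import Pool.Agent.R284.RC.Stm

/-!
Project RC (MP_ce24da_an), piece LOC1, by helper609.
-/

set_option autoImplicit false
open MeasureTheory Set Filter Topology
open scoped ENNReal NNReal

namespace Pool.Agent.R609.RC

open Pool.Agent.R284.RC

variable {n : ℕ}

lemma bs_of_ball {μ : Measure (E n)} {x0 : E n} {r : ℝ}
    (h : μ (Metric.closedBall x0 r)ᶜ = 0) : BS μ := by
  refine ⟨‖x0‖ + r, measure_mono_null (compl_subset_compl.2 ?_) h⟩
  intro y hy
  rw [Metric.mem_closedBall, dist_zero_right]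
  rw [Metric.mem_closedBall, dist_eq_norm] at hy
  calc ‖y‖ = ‖x0 + (y - x0)‖ := by congr 1; abel
    _ ≤ ‖x0‖ + ‖y - x0‖ := norm_add_le _ _
    _ ≤ _ := by linarith

lemma bs_mix {σ τ : Measure (E n)} (hσ : BS σ) (hτ : BS τ) (t : ℝ) : BS (mixM t σ τ) := by
  obtain ⟨R, hR⟩ := hσ
  obtain ⟨R', hR'⟩ := hτ
  refine ⟨max R R', ?_⟩
  unfold mixM
  rw [Measure.add_apply, Measure.smul_apply, Measure.smul_apply]
  have h1 : σ (Metric.closedBall 0 (max R R'))ᶜ = 0 :=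
    measure_mono_null (compl_subset_compl.2
      (Metric.closedBall_subset_closedBall (le_max_left _ _))) hR
  have h2 : τ (Metric.closedBall 0 (max R R'))ᶜ = 0 :=
    measure_mono_null (compl_subset_compl.2
      (Metric.closedBall_subset_closedBall (le_max_right _ _))) hR'
  rw [h1, h2]
  simp

lemma prob_mix {σ τ : Measure (E n)} (hσ : IsProbabilityMeasure σ) (hτ : IsProbabilityMeasure τ)
    {t : ℝ} (ht : t ∈ Icc (0 : ℝ) 1) : IsProbabilityMeasure (mixM t σ τ) := by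
  refine ⟨?_⟩
  unfold mixM
  rw [Measure.add_apply, Measure.smul_apply, Measure.smul_apply, measure_univ, measure_univ,
    smul_eq_mul, smul_eq_mul, mul_one, mul_one, ← ENNReal.ofReal_add (by linarith [ht.2]) ht.1]
  simp

lemma pd (hR : S_pdR) (hL : S_pdL) {p : ℝ} (hp : 0 ≤ p) {σ τ : Measure (E n)}
    (h1 : IsProbabilityMeasure σ) (h2 : IsProbabilityMeasure τ) (h3 : BS σ) (h4 : BS τ)
    (h5 : FinEn p σ σ) (h6 : FinEn p τ τ) :
    FinEn p σ τ ∧ 2 * En p σ τ ≤ En p σ σ + En p τ τ := by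
  rcases hp.eq_or_lt with h | h
  · subst h
    exact hL n σ τ h1 h2 h3 h4 h5 h6
  · exact hR n p h σ τ h1 h2 h3 h4 h5 h6

lemma energy_est (hR : S_pdR) (hL : S_pdL) (hexp : S_exp) {p : ℝ} (hp : 0 ≤ p)
    {σ ν lam : Measure (E n)}
    (hσ : IsProbabilityMeasure σ) (hν : IsProbabilityMeasure ν) (hlam : IsProbabilityMeasure lam)
    (bσ : BS σ) (bν : BS ν) (bl : BS lam) (fσ : FinEn p σ σ) (fν : FinEn p ν ν)
    (fl : FinEn p lam lam) (fσl : FinEn p σ lam) (fνl : FinEn p ν lam)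
    {V a b c : ℝ} {t : ℝ} (ht0 : 0 < t) (ht1 : t ≤ 1)
    (h1 : En p ν ν ≤ V) (h2 : V ≤ En p σ ν) (h3 : En p σ σ ≤ V + a) (h4 : En p lam ν ≤ b)
    (h5 : En p lam lam ≤ c) :
    2 * t * En p lam σ ≤ a + t ^ 2 * V + 2 * t * (1 - t) * b + t ^ 2 * c := by
  have htI : t ∈ Icc (0 : ℝ) 1 := ⟨ht0.le, ht1⟩
  obtain ⟨e1, e2⟩ := hexp n p ν lam hν hlam fν fl fνl
  obtain ⟨m1, m2, m3⟩ := e2 t htI
  obtain ⟨fσν, -⟩ := pd hR hL hp hσ hν bσ bν fσ fν
  obtain ⟨m4, m5⟩ := m3 σ hσ fσν fσl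
  obtain ⟨-, m6⟩ := pd hR hL hp hσ (prob_mix hν hlam htI) bσ (bs_mix bν bl t) fσ m1
  obtain ⟨e3, -⟩ := hexp n p σ lam hσ hlam fσ fl fσl
  rw [m2, m5, e1] at m6
  rw [← e3]
  have ht2 : 0 ≤ 1 - t := by linarith
  have k1 : (1 - t) * V ≤ (1 - t) * En p σ ν := mul_le_mul_of_nonneg_left h2 ht2
  have k2 : (1 - t) ^ 2 * En p ν ν ≤ (1 - t) ^ 2 * V :=
    mul_le_mul_of_nonneg_left h1 (sq_nonneg _)
  have k3 : 2 * t * (1 - t) * En p lam ν ≤ 2 * t * (1 - t) * b :=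
    mul_le_mul_of_nonneg_left h4 (by positivity)
  have k4 : t ^ 2 * En p lam lam ≤ t ^ 2 * c := mul_le_mul_of_nonneg_left h5 (sq_nonneg _)
  nlinarith [k1, k2, k3, k4, m6, h3]

lemma dist_est {x z y x0 : E n} {κ r : ℝ} (hκ0 : 0 < κ) (hκ1 : κ < 1)
    (hx : dist x x0 ≤ κ * r) (hz : dist z x0 ≤ κ * r) (hy : r ≤ dist y x0) :
    (1 - 2 * κ / (1 - κ)) * dist z y ≤ dist x y := by
  have h1 : (1 - κ) * r ≤ dist z y := by
    have := dist_triangle y z x0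
    rw [dist_comm z y]
    linarith
  have h2 : dist z y ≤ dist x y + 2 * κ * r := by
    have a1 := dist_triangle z x y
    have a2 := dist_triangle z x0 x
    rw [dist_comm x0 x] at a2
    linarith
  have h3 : κ * r ≤ κ / (1 - κ) * dist z y := by
    rw [div_mul_eq_mul_div, le_div_iff₀ (by linarith)]
    nlinarith
  have h4 : (1 - 2 * κ / (1 - κ)) * dist z y = dist z y - 2 * (κ / (1 - κ) * dist z y) := by ring
  rw [h4]
  linarith

lemma kr_le_pos {p : ℝ} (hp : 0 < p) {x z y : E n} {a : ℝ} (ha : 0 < a) (hz : 0 < dist z y)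
    (h : a * dist z y ≤ dist x y) : kr p x y ≤ a ^ (-p) * kr p z y := by
  unfold kr
  rw [if_neg hp.ne', if_neg hp.ne', ← Real.mul_rpow ha.le hz.le]
  exact Real.rpow_le_rpow_of_nonpos (by positivity) h (by linarith)

lemma kr_le_zero {p : ℝ} (hp : p = 0) {x z y : E n} {a : ℝ} (ha : 0 < a) (hz : 0 < dist z y)
    (h : a * dist z y ≤ dist x y) : kr p x y ≤ kr p z y + -Real.log a := by
  unfold kr
  rw [if_pos hp, if_pos hp]
  have := Real.log_le_log (by positivity) h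
  rw [Real.log_mul ha.ne' hz.ne'] at this
  linarith

lemma avg_le {p : ℝ} {lam σ : Measure (E n)} (hl : IsProbabilityMeasure lam)
    (hσ : IsProbabilityMeasure σ)
    (hI : Integrable (fun z : E n × E n => kr p z.1 z.2) (lam.prod σ)) {S : Set (E n)}
    (hS : lam Sᶜ = 0) {u c d : ℝ} (h : ∀ z ∈ S, u ≤ c * U p σ z + d) :
    u ≤ c * En p lam σ + d := by
  have hi : Integrable (fun z => U p σ z) lam := hI.integral_prod_left
  have h1 : ∀ᵐ z ∂lam, z ∈ S := by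
    rw [ae_iff]
    exact hS
  calc u = ∫ z, u ∂lam := by simp
    _ ≤ ∫ z, (c * U p σ z + d) ∂lam :=
        integral_mono_ae (integrable_const _) ((hi.const_mul c).add (integrable_const d))
          (h1.mono fun z hz => h z hz)
    _ = c * En p lam σ + d := by
      rw [integral_add (hi.const_mul c) (integrable_const d), integral_const_mul]
      simp [En]

lemma exists_kappa (p V η0 : ℝ) (hη : 0 < η0) : ∃ κ : ℝ, 0 < κ ∧ κ < 1 ∧
    0 < 1 - 2 * κ / (1 - κ) ∧ -Real.log (1 - 2 * κ / (1 - κ)) ≤ 2 * η0 ∧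
    ((1 - 2 * κ / (1 - κ)) ^ (-p) - 1) * V ≤ 2 * η0 := by
  have hf : ContinuousAt (fun κ : ℝ => 1 - 2 * κ / (1 - κ)) 0 := by
    refine ContinuousAt.sub continuousAt_const
      (ContinuousAt.div (by fun_prop) (by fun_prop) (by norm_num))
  have hft : Tendsto (fun κ : ℝ => 1 - 2 * κ / (1 - κ)) (𝓝[>] 0) (𝓝 1) := by
    have h := hf.tendsto
    have h0 : (1 : ℝ) - 2 * 0 / (1 - 0) = 1 := by norm_num
    rw [h0] at h
    exact h.mono_left nhdsWithin_le_nhds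
  have e0 : ∀ᶠ κ in 𝓝[>] (0 : ℝ), κ ∈ Ioo (0 : ℝ) 1 := Ioo_mem_nhdsGT one_pos
  have e1 : ∀ᶠ κ in 𝓝[>] (0 : ℝ), 0 < 1 - 2 * κ / (1 - κ) := hft.eventually_const_lt one_pos
  have e2 : Tendsto (fun κ : ℝ => -Real.log (1 - 2 * κ / (1 - κ))) (𝓝[>] 0)
      (𝓝 (-Real.log 1)) := ((Real.continuousAt_log one_ne_zero).tendsto.comp hft).neg
  have e3 : Tendsto (fun κ : ℝ => ((1 - 2 * κ / (1 - κ)) ^ (-p) - 1) * V) (𝓝[>] 0)
      (𝓝 ((1 ^ (-p) - 1) * V)) :=
    ((hft.rpow_const (Or.inl one_ne_zero)).sub_const 1).mul_const V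
  rw [Real.log_one, neg_zero] at e2
  rw [Real.one_rpow, sub_self, zero_mul] at e3
  obtain ⟨κ, h0, h1, h2, h3⟩ := (e0.and (e1.and ((e2.eventually_le_const
    (by linarith : (0 : ℝ) < 2 * η0)).and (e3.eventually_le_const
    (by linarith : (0 : ℝ) < 2 * η0))))).exists
  exact ⟨κ, h0.1, h0.2, h1, h2, h3⟩

lemma small_r (C C' A V κ s q η : ℝ) (hs : 0 < s) (hsq : s < q) (hκ : 0 < κ) (hη : 0 < η) :
    ∀ᶠ r in 𝓝[>] (0 : ℝ), C * r ^ q / (2 * r ^ ((q + s) / 2)) + r ^ ((q + s) / 2) * A +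
      r ^ ((q + s) / 2) * (V + C' * (κ * r) ^ (-s)) / 2 ≤ η := by
  have ht : ∀ y : ℝ, 0 < y → Tendsto (fun r : ℝ => r ^ y) (𝓝[>] 0) (𝓝 0) := by
    intro y hy
    have h := (Real.continuousAt_rpow_const 0 y (Or.inr hy.le)).tendsto
    rw [Real.zero_rpow hy.ne'] at h
    exact h.mono_left nhdsWithin_le_nhds
  have h1 : Tendsto (fun r : ℝ => C / 2 * r ^ ((q - s) / 2) + r ^ ((q + s) / 2) * (A + V / 2) +
      C' * κ ^ (-s) / 2 * r ^ ((q - s) / 2)) (𝓝[>] 0)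
      (𝓝 (C / 2 * 0 + 0 * (A + V / 2) + C' * κ ^ (-s) / 2 * 0)) := by
    refine Tendsto.add (Tendsto.add ?_ ?_) ?_
    · exact (ht _ (by linarith)).const_mul _
    · exact (ht _ (by linarith)).mul_const _
    · exact (ht _ (by linarith)).const_mul _
  have h0 : C / 2 * 0 + 0 * (A + V / 2) + C' * κ ^ (-s) / 2 * 0 = (0 : ℝ) := by ring
  rw [h0] at h1
  filter_upwards [h1.eventually_le_const hη, self_mem_nhdsWithin] with r hr hr0
  have hr0' : (0 : ℝ) < r := hr0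
  refine le_trans (le_of_eq ?_) hr
  have ht0 : 0 < r ^ ((q + s) / 2) := Real.rpow_pos_of_pos hr0' _
  have a1 : r ^ q = r ^ ((q + s) / 2) * r ^ ((q - s) / 2) := by
    rw [← Real.rpow_add hr0']
    congr 1
    ring
  have a2 : (κ * r) ^ (-s) = κ ^ (-s) * r ^ (-s) := Real.mul_rpow hκ.le hr0'.le
  have a3 : r ^ ((q + s) / 2) * r ^ (-s) = r ^ ((q - s) / 2) := by
    rw [← Real.rpow_add hr0']
    congr 1
    ring
  rw [a1, a2]
  have a4 : C * (r ^ ((q + s) / 2) * r ^ ((q - s) / 2)) / (2 * r ^ ((q + s) / 2)) =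
      C / 2 * r ^ ((q - s) / 2) := by
    field_simp
  rw [a4]
  have a5 : r ^ ((q + s) / 2) * (V + C' * (κ ^ (-s) * r ^ (-s))) / 2 =
      r ^ ((q + s) / 2) * (V / 2) + C' * κ ^ (-s) / 2 * (r ^ ((q + s) / 2) * r ^ (-s)) := by
    ring
  rw [a5, a3]
  ring

theorem loc1_proof (h1 : S_avg) (h2 : S_pdR) (h3 : S_pdL) (h4 : S_exp) (h5 : S_int)
    (h6 : S_cls) : S_loc1 := by
  intro n p q μ ν V C1 C2 γ ctx x0 hx0 hU
  obtain ⟨hp, hpq, hqn, pμ, bpμ, bsμ, hV, hlow, hopt, pν, bsν, fν, hν, hν2⟩ := ctx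
  obtain ⟨C', lam, hC', hlam, hlam2⟩ := h1 n p q hp hpq hqn ν pν bsν x0 hx0
  obtain ⟨η0, hη0⟩ : ∃ η0 : ℝ, η0 = (V - U p ν x0) / 5 := ⟨_, rfl⟩
  have hη0p : 0 < η0 := by
    rw [hη0]
    linarith
  obtain ⟨κ, hκ0, hκ1, ha, hκl, hκp⟩ := exists_kappa p V η0 hη0p
  refine ⟨η0, hη0p, κ, ⟨hκ0, hκ1⟩, ?_⟩
  intro C hC
  obtain ⟨ra, hra, hla⟩ := hlam2 (η0 / 2) (by linarith)
  have hsm := small_r C C' |U p ν x0 + η0 / 2| V κ ((p + q) / 2) q (η0 / 2) (by linarith)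
    (by linarith) hκ0 (by linarith)
  rw [Filter.Eventually, mem_nhdsGT_iff_exists_Ioo_subset] at hsm
  obtain ⟨rb, hrb, hlb⟩ := hsm
  refine ⟨min 1 (min ra rb), lt_min one_pos (lt_min hra hrb), ?_⟩
  intro r hr σ hσ hσ0 hσE x hx
  have hr0 : 0 < r := hr.1
  have hr1 : r < 1 := lt_of_lt_of_le hr.2 (min_le_left _ _)
  have hra' : r < ra := lt_of_lt_of_le hr.2 ((min_le_right _ _).trans (min_le_left _ _))
  have hrb' : r < rb := lt_of_lt_of_le hr.2 ((min_le_right _ _).trans (min_le_right _ _))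
  have hκr : 0 < κ * r := by positivity
  have hκr1 : κ * r < r := by nlinarith
  obtain ⟨pl, hl0, bpl, hlE⟩ := hlam (κ * r) ⟨hκr, by linarith⟩
  obtain ⟨-, hlν⟩ := hla (κ * r) ⟨hκr, by linarith⟩
  have bsl : BS (lam (κ * r)) := bs_of_ball hl0
  have hσ' : IsProbabilityMeasure σ ∧ (∃ c : ℝ≥0, σ ≤ c • μ) ∧ BS σ := hσ
  obtain ⟨pσ, -, bsσ⟩ := hσ'
  have hσV := hν2 σ hσ
  have bpσ : BP q σ := (h6 n q μ inferInstance).2.1 bpμ σ hσ
  have fσ : FinEn p σ σ :=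
    (h5 n p q hp hpq σ σ inferInstance inferInstance bpσ bsσ bsσ).2.2
  have fl : FinEn p (lam (κ * r)) (lam (κ * r)) :=
    (h5 n p q hp hpq _ _ inferInstance inferInstance bpl bsl bsl).2.2
  have fσl : FinEn p σ (lam (κ * r)) :=
    (h5 n p q hp hpq _ _ inferInstance inferInstance bpl bsσ bsl).2.2
  have fνl : FinEn p ν (lam (κ * r)) :=
    (h5 n p q hp hpq _ _ inferInstance inferInstance bpl bsν bsl).2.2
  obtain ⟨Il, Iσ, -⟩ := h5 n p q hp hpq (lam (κ * r)) σ inferInstance inferInstance bpσ bsl bsσ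
  have hb : C * r ^ q / (2 * r ^ ((q + (p + q) / 2) / 2)) +
      r ^ ((q + (p + q) / 2) / 2) * |U p ν x0 + η0 / 2| +
      r ^ ((q + (p + q) / 2) / 2) * (V + C' * (κ * r) ^ (-((p + q) / 2))) / 2 ≤ η0 / 2 :=
    hlb ⟨hr0, hrb'⟩
  obtain ⟨t, ht⟩ : ∃ t : ℝ, t = r ^ ((q + (p + q) / 2) / 2) := ⟨_, rfl⟩
  rw [← ht] at hb
  have ht0 : 0 < t := by
    rw [ht]
    exact Real.rpow_pos_of_pos hr0 _
  have ht1 : t ≤ 1 := by
    rw [ht]
    exact Real.rpow_le_one hr0.le hr1.le (by linarith)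
  have key := energy_est h2 h3 h4 hp pσ pν pl bsσ bsν bsl fσ fν fl fσl fνl ht0 ht1 hν hσV hσE
    hlν hlE
  have hE : En p (lam (κ * r)) σ ≤ V - 4 * η0 := by
    have k1 : En p (lam (κ * r)) σ ≤ C * r ^ q / (2 * t) +
        t * (V + C' * (κ * r) ^ (-((p + q) / 2))) / 2 + (1 - t) * (U p ν x0 + η0 / 2) := by
      have e : C * r ^ q / (2 * t) + t * (V + C' * (κ * r) ^ (-((p + q) / 2))) / 2 +
          (1 - t) * (U p ν x0 + η0 / 2) = (C * r ^ q + t ^ 2 * V +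
            2 * t * (1 - t) * (U p ν x0 + η0 / 2) +
            t ^ 2 * (C' * (κ * r) ^ (-((p + q) / 2)))) / (2 * t) := by
        field_simp
        ring
      rw [e, le_div_iff₀ (by positivity)]
      linarith
    have k2 : (1 - t) * (U p ν x0 + η0 / 2) ≤
        (U p ν x0 + η0 / 2) + t * |U p ν x0 + η0 / 2| := by
      nlinarith [neg_abs_le (U p ν x0 + η0 / 2)]
    have k3 : U p ν x0 = V - 5 * η0 := by
      rw [hη0]
      ring
    linarith
  -- the pointwise comparison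
  have hae : ∀ z ∈ Metric.closedBall x0 (κ * r), ∀ᵐ y ∂σ,
      0 < dist z y ∧ (1 - 2 * κ / (1 - κ)) * dist z y ≤ dist x y := by
    intro z hz
    have h0 : ∀ᵐ y ∂σ, y ∉ Metric.ball x0 r := measure_eq_zero_iff_ae_notMem.1 hσ0
    filter_upwards [h0] with y hy
    rw [Metric.mem_ball, not_lt] at hy
    rw [Metric.mem_closedBall] at hz hx
    refine ⟨?_, dist_est hκ0 hκ1 hx hz hy⟩
    have := dist_triangle y z x0
    rw [dist_comm z y]
    linarith
  have ha1 : 1 - 2 * κ / (1 - κ) ≤ 1 := by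
    have : 0 ≤ 2 * κ / (1 - κ) := div_nonneg (by linarith) (by linarith)
    linarith
  rcases hp.eq_or_lt with hp0 | hp0
  · have hz : ∀ z ∈ Metric.closedBall x0 (κ * r),
        U p σ x ≤ 1 * U p σ z + -Real.log (1 - 2 * κ / (1 - κ)) := by
      intro z hz
      have e : 1 * U p σ z + -Real.log (1 - 2 * κ / (1 - κ)) =
          ∫ y, (kr p z y + -Real.log (1 - 2 * κ / (1 - κ))) ∂σ := by
        rw [integral_add (Iσ z) (integrable_const _)]
        simp [U]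
      rw [e]
      refine integral_mono_ae (Iσ x) ((Iσ z).add (integrable_const _)) ?_
      filter_upwards [hae z hz] with y hy
      exact kr_le_zero hp0.symm ha hy.1 hy.2
    have := avg_le pl pσ Il hl0 hz
    linarith
  · have hz : ∀ z ∈ Metric.closedBall x0 (κ * r),
        U p σ x ≤ (1 - 2 * κ / (1 - κ)) ^ (-p) * U p σ z + 0 := by
      intro z hz
      rw [add_zero]
      unfold U
      rw [← integral_const_mul]
      refine integral_mono_ae (Iσ x) ((Iσ z).const_mul _) ?_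
      filter_upwards [hae z hz] with y hy
      exact kr_le_pos hp0 ha hy.1 hy.2
    have h7 := avg_le pl pσ Il hl0 hz
    have h8 : 1 ≤ (1 - 2 * κ / (1 - κ)) ^ (-p) :=
      Real.one_le_rpow_of_pos_of_le_one_of_nonpos ha ha1 (by linarith)
    have h9 : (1 - 2 * κ / (1 - κ)) ^ (-p) * En p (lam (κ * r)) σ ≤
        (1 - 2 * κ / (1 - κ)) ^ (-p) * (V - 4 * η0) :=
      mul_le_mul_of_nonneg_left hE (by linarith)
    nlinarith [h7, h8, h9, hκp, hη0p]

end Pool.Agent.R609.RC
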